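import Mathlib
import Pool.Agent.ZPU.Stmts

/-!
# Squad ZPU, row SHR (helper27): reduction of shifted polynomials.
-/

set_option autoImplicit false

namespace Pool.Agent.ZPU.H27

open Polynomial Pool.Agent.ZPU

section ttSec

variable (p : ℕ) {k : Type} [Field k] [CharP k p] (c : k)

theorem tt_add (A B : (ZMod p)[X]) : tt p c (A + B) = tt p c A + tt p c B := by
  unfold tt
  rw [Polynomial.map_add, add_comp]

theorem tt_mul (A B : (ZMod p)[X]) : tt p c (A * B) = tt p c A * tt p c B := by
  unfold tt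
  rw [Polynomial.map_mul, mul_comp]

theorem tt_sub (A B : (ZMod p)[X]) : tt p c (A - B) = tt p c A - tt p c B := by
  unfold tt
  rw [Polynomial.map_sub, sub_comp]

theorem tt_one : tt p c 1 = 1 := by
  unfold tt
  rw [Polynomial.map_one, one_comp]

theorem tt_C (s : ZMod p) : tt p c (C s) = C (ZMod.castHom (dvd_refl p) k s) := by
  unfold tt
  rw [map_C, C_comp]

theorem tt_der (A : (ZMod p)[X]) : derivative (tt p c A) = tt p c (derivative A) := by
  unfold tt
  rw [derivative_comp, derivative_map]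
  simp

theorem tt_wr (A B : (ZMod p)[X]) : wr (tt p c A) (tt p c B) = tt p c (wr A B) := by
  unfold wr
  rw [tt_sub, tt_mul, tt_mul, tt_der, tt_der]

theorem tt_cop (A B : (ZMod p)[X]) (h : IsCoprime A B) : IsCoprime (tt p c A) (tt p c B) := by
  obtain ⟨u, v, huv⟩ := h
  refine ⟨tt p c u, tt p c v, ?_⟩
  rw [← tt_mul, ← tt_mul, ← tt_add, huv, tt_one]

theorem tt_deg [Fact p.Prime] (A : (ZMod p)[X]) : (tt p c A).natDegree = A.natDegree := by
  unfold tt
  rw [natDegree_comp, natDegree_X_add_C, mul_one, natDegree_map]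

theorem tt_zero [Fact p.Prime] (A : (ZMod p)[X]) : tt p c A = 0 ↔ A = 0 := by
  constructor
  · intro h
    have h1 : taylor c (A.map (ZMod.castHom (dvd_refl p) k)) = taylor c 0 := by
      rw [map_zero, taylor_apply]
      exact h
    have h2 := taylor_injective c h1
    exact (Polynomial.map_eq_zero _).1 h2
  · rintro rfl
    unfold tt
    rw [Polynomial.map_zero, zero_comp]

theorem tt_sg [Fact p.Prime] (A B : (ZMod p)[X]) (h : Sg p A B) :
    Sg p (tt p c A) (tt p c B) := by
  obtain ⟨f, A₀, h0, h1, h2⟩ := h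
  refine ⟨tt p c f, tt p c A₀, ?_, ?_, ?_⟩
  · rw [tt_deg]
    exact h0
  · rw [tt_deg]
    exact h1
  · rcases h2 with ⟨e, c1, c2⟩ | ⟨e, c1, c2⟩
    · exact Or.inl ⟨by rw [e, tt_mul], tt_cop p c _ _ c1, tt_cop p c _ _ c2⟩
    · exact Or.inr ⟨by rw [e, tt_mul], tt_cop p c _ _ c1, tt_cop p c _ _ c2⟩

end ttSec

theorem shr : SHRStmt := by
  intro p hp k _ _
  have : Fact p.Prime := ⟨hp⟩
  refine ⟨fun c A B => ⟨tt_add p c A B, tt_mul p c A B, tt_sub p c A B, tt_wr p c A B,
    tt_der p c A, tt_deg p c A, tt_zero p c A, tt_cop p c A B, tt_sg p c A B⟩, tt_C p, ?_⟩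
  intro K _ _ _ r hr A τ
  have e1 : (A.map (Int.castRingHom (OO K))).map r =
      (bar p A).map (ZMod.castHom (dvd_refl p) k) := by
    unfold bar
    rw [Polynomial.map_map, Polynomial.map_map]
    congr 1
    exact RingHom.ext_int _ _
  refine ⟨?_, ?_⟩
  · unfold sh tt
    rw [Polynomial.map_comp, e1]
    simp
  · have e2 : (tt p (r τ) (bar p A)).coeff 0 =
        r ((A.map (Int.castRingHom (OO K))).eval τ) := by
      unfold tt
      rw [coeff_zero_eq_eval_zero, eval_comp, ← e1, eval_add, eval_X, eval_C, zero_add,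
        eval_map_apply]
    have e3 : (((A.map (Int.castRingHom (OO K))).eval τ : OO K) : K) = aeval (τ : K) A := by
      rw [aeval_def, eval_map]
      have h := Polynomial.hom_eval₂ A (Int.castRingHom (OO K)) (OO K).subtype τ
      rw [RingHom.ext_int ((OO K).subtype.comp (Int.castRingHom (OO K))) (algebraMap ℤ K)] at h
      exact h
    rw [e2, hr, e3]

end Pool.Agent.ZPU.H27
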